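import Pool.Agent.T9h70.Box.Basic

set_option autoImplicit false

namespace Pool.Agent.T9h70.Pt

open Finset Pool.Agent.T9h70.Box

/-! ### blocks -/

open Classical in
/-- the block function of a convex relation `R` on the natural numbers: the length of the longest chain
which ends in `s` and such that no two consecutive members are related. -/
noncomputable def blk (R : ℕ → ℕ → Prop) (s : ℕ) : ℕ :=
  (range s).attach.sup fun t => if R t s then 0 else blk R t + 1
termination_by s
decreasing_by exact mem_range.1 t.2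

/-- a relation which is given by a family of intervals -/
def Conv (R : ℕ → ℕ → Prop) : Prop := ∀ t u v s, t ≤ u → u ≤ v → v ≤ s → R t s → R u v

theorem blk_lt {R : ℕ → ℕ → Prop} {t s : ℕ} (h : t < s) (hR : ¬ R t s) :
    blk R t + 1 ≤ blk R s := by
  classical
  rw [blk.eq_1 R s]
  refine le_trans ?_ (le_sup (f := fun t : range s => if R t s then 0 else blk R t + 1)
    (mem_attach _ ⟨t, mem_range.2 h⟩))
  simp only
  rw [if_neg hR]

theorem blk_eq {R : ℕ → ℕ → Prop} {s : ℕ} (h : blk R s ≠ 0) : ∃ t < s, ¬ R t s ∧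
    blk R s = blk R t + 1 := by
  classical
  have h1 := blk.eq_1 R s
  have hne : ((range s).attach).Nonempty := by
    by_contra h2
    rw [not_nonempty_iff_eq_empty] at h2
    rw [h2, sup_empty] at h1
    exact h h1
  obtain ⟨⟨t, ht⟩, -, h2⟩ := exists_mem_eq_sup _ hne
    (fun t : range s => if R t s then 0 else blk R t + 1)
  rw [h2] at h1
  simp only at h1
  split_ifs at h1 with h3
  · exact absurd h1 h
  · exact ⟨t, mem_range.1 ht, h3, h1⟩

theorem blk_mono {R : ℕ → ℕ → Prop} (hR : Conv R) {t s : ℕ} (h : t ≤ s) : blk R t ≤ blk R s := by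
  by_cases h0 : blk R t = 0
  · omega
  · obtain ⟨u, hu, hu', he⟩ := blk_eq h0
    have h1 : ¬ R u s := fun h2 => hu' (hR u u t s le_rfl hu.le h h2)
    have := blk_lt (hu.trans_le h) h1
    omega

theorem blk_le {R : ℕ → ℕ → Prop} (hR : Conv R) {t s : ℕ} (h : t ≤ s) (hts : R t s) :
    blk R s ≤ blk R t + 1 := by
  by_cases h0 : blk R s = 0
  · omega
  · obtain ⟨u, hu, hu', he⟩ := blk_eq h0
    have h1 : u ≤ t := by
      by_contra h2
      push Not at h2
      exact hu' (hR t u s s h2.le hu.le le_rfl hts)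
    have := blk_mono hR h1
    omega

/-! ### points and intervals -/

variable {V : Type}

/-- a point lies in the interval of `y` -/
def Mem (l r : V → ℕ) (s : ℕ) (y : V) : Prop := l y ≤ s ∧ s ≤ r y

/-- the relation given by the intervals of the members of `W` -/
def Rel (l r : V → ℕ) (W : V → Prop) (t s : ℕ) : Prop := ∃ w, W w ∧ Mem l r t w ∧ Mem l r s w

theorem Rel.conv (l r : V → ℕ) (W : V → Prop) : Conv (Rel l r W) := by
  rintro t u v s h1 h2 h3 ⟨w, hw, h4, h5⟩
  exact ⟨w, hw, ⟨h4.1.trans h1, by have := h5.2; omega⟩, ⟨by have := h4.1; omega, h3.trans h5.2⟩⟩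

/-- the adjacency -/
def PI (p l r : V → ℕ) (G : SimpleGraph V) : Prop :=
  ∀ x y, G.Adj x y ↔ x ≠ y ∧ (Mem l r (p x) y ∨ Mem l r (p y) x)

/-- the vertices of a block -/
theorem block_sub [Finite V] {p l r : V → ℕ} (hp : Function.Injective p) {W : V → Prop}
    (S : V → Prop) (j : ℕ) :
    (∀ x y, S x → S y → blk (Rel l r W) (p x) = j → blk (Rel l r W) (p y) = j → x = y) ∨
    ∃ w, W w ∧ ∀ x, S x → blk (Rel l r W) (p x) = j → Mem l r (p x) w := by
  classical
  cases nonempty_fintype V
  by_cases h : ∀ x y, S x → S y → blk (Rel l r W) (p x) = j → blk (Rel l r W) (p y) = j → x = y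
  · exact Or.inl h
  right
  push Not at h
  obtain ⟨x, y, hx, hy, hx', hy', hxy⟩ := h
  set Z : Finset V := univ.filter fun z => S z ∧ blk (Rel l r W) (p z) = j with hZ
  have hxZ : x ∈ Z := mem_filter.2 ⟨mem_univ _, hx, hx'⟩
  have hyZ : y ∈ Z := mem_filter.2 ⟨mem_univ _, hy, hy'⟩
  obtain ⟨a, ha, hamin⟩ := exists_min_image Z p ⟨x, hxZ⟩
  obtain ⟨b, hb, hbmax⟩ := exists_max_image Z p ⟨x, hxZ⟩
  have hab : p a < p b := by
    rcases lt_or_gt_of_ne (fun h => hxy (hp h) : p x ≠ p y) with h | h
    · exact (hamin x hxZ).trans_lt (h.trans_le (hbmax y hyZ))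
    · exact (hamin y hyZ).trans_lt (h.trans_le (hbmax x hxZ))
  have ha' := (mem_filter.1 ha).2.2
  have hb' := (mem_filter.1 hb).2.2
  have hR : Rel l r W (p a) (p b) := by
    by_contra h1
    have := blk_lt hab h1
    omega
  obtain ⟨w, hw, h1, h2⟩ := hR
  refine ⟨w, hw, fun z hz hz' => ?_⟩
  have hzZ : z ∈ Z := mem_filter.2 ⟨mem_univ _, hz, hz'⟩
  exact ⟨h1.1.trans (hamin z hzZ), (hbmax z hzZ).trans h2.2⟩

/-- the neighbourhoods can be coloured with `τ` colours -/
def NCol (G : SimpleGraph V) (τ : ℕ) : Prop :=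
  ∀ v, Col (fun x y => G.Adj x y ∧ G.Adj v x ∧ G.Adj v y) τ

/-- colouring inside the blocks -/
theorem block_col [Finite V] {p l r : V → ℕ} {G : SimpleGraph V} (hp : Function.Injective p)
    (hG : PI p l r G) {τ : ℕ} (hτ : NCol G τ) (W : V → Prop) :
    Col (fun x y => G.Adj x y ∧ blk (Rel l r W) (p x) = blk (Rel l r W) (p y)) (τ + 1) := by
  classical
  choose c c1 c2 using hτ
  have key : ∀ j : ℕ, ∃ w : Option V,
      (w = none → ∀ x y, blk (Rel l r W) (p x) = j → blk (Rel l r W) (p y) = j → x = y) ∧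
      ∀ w', w = some w' → ∀ x, blk (Rel l r W) (p x) = j → Mem l r (p x) w' := by
    intro j
    rcases block_sub (l := l) (r := r) (W := W) hp (fun _ => True) j with h | ⟨w, -, h⟩
    · exact ⟨none, fun _ x y => h x y trivial trivial, fun w' hw' => by simp at hw'⟩
    · refine ⟨some w, fun h => by simp at h, fun w' hw' x hx => ?_⟩
      obtain rfl := Option.some.inj hw'
      exact h x trivial hx
  choose w w1 w2 using key
  let B : V → ℕ := fun x => blk (Rel l r W) (p x)
  refine ⟨fun x => match w (B x) with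
    | none => 0
    | some v => if x = v then τ else c v x, fun x => ?_, fun x y hxy => ?_⟩
  · simp only
    rcases h : w (B x) with _ | v
    · simp
    · simp only
      split_ifs
      · omega
      · exact (c1 v x).trans (Nat.lt_succ_self τ)
  · obtain ⟨hadj, hb⟩ := hxy
    have hb' : B x = B y := hb
    simp only [hb']
    rcases h : w (B y) with _ | v
    · exact absurd (w1 _ h x y hb' rfl) hadj.ne
    · simp only
      have hx := w2 _ v h x hb'
      have hy := w2 _ v h y rfl
      split_ifs with h1 h2 h2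
      · exact absurd (h1.trans h2.symm) hadj.ne
      · exact (c1 v y).ne'
      · exact (c1 v x).ne
      · refine c2 v x y ⟨hadj, (hG v x).2 ⟨fun h => h1 h.symm, Or.inr hx⟩,
          (hG v y).2 ⟨fun h => h2 h.symm, Or.inr hy⟩⟩

/-- the vertices whose point lies in their interval -/
theorem col_A [Finite V] {p l r : V → ℕ} {G : SimpleGraph V} (hp : Function.Injective p)
    (hG : PI p l r G) {τ : ℕ} (hτ : NCol G τ) :
    Col (fun x y => G.Adj x y ∧ Mem l r (p x) x ∧ Mem l r (p y) y) (2 * (τ + 1)) := by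
  classical
  set b := blk (Rel l r fun _ => True) with hb
  have hc := Rel.conv l r fun _ => True
  have h1 : Col (fun x y => G.Adj x y ∧ b (p x) ≠ b (p y) ∧ b (p x) ≤ b (p y) + 1 ∧
      b (p y) ≤ b (p x) + 1) 2 := by
    refine ⟨fun x => b (p x) % 2, fun x => Nat.mod_lt _ (by norm_num), fun x y hxy => ?_⟩
    obtain ⟨-, h2, h3, h4⟩ := hxy
    simp only
    omega
  refine (h1.prod (block_col hp hG hτ fun _ => True)).mono ?_ le_rfl
  rintro x y ⟨hadj, hx, hy⟩
  by_cases he : b (p x) = b (p y)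
  · exact Or.inr ⟨hadj, he⟩
  · left
    have key : ∀ x y, Mem l r (p x) y → Mem l r (p y) y → b (p x) ≤ b (p y) + 1 ∧
        b (p y) ≤ b (p x) + 1 := by
      intro x y h1 h2
      rcases le_total (p x) (p y) with h | h
      · exact ⟨(blk_mono hc h).trans (Nat.le_succ _), blk_le hc h ⟨y, trivial, h1, h2⟩⟩
      · exact ⟨blk_le hc h ⟨y, trivial, h2, h1⟩, (blk_mono hc h).trans (Nat.le_succ _)⟩
    rcases ((hG x y).1 hadj).2 with h | h
    · exact ⟨hadj, he, key x y h hy⟩
    · exact ⟨hadj, he, (key y x h hx).2, (key y x h hx).1⟩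

end Pool.Agent.T9h70.Pt
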