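import Pool.Agent.T9h70.Pt.Tree

set_option autoImplicit false

namespace Pool.Agent.T9h70.Pt

open Finset Pool.Agent.T9h70.Box

variable {V : Type}

/-- colouring the vertices of an exact level -/
theorem col_level [Finite V] {p l r : V → ℕ} {G : SimpleGraph V} (hp : Function.Injective p)
    (hG : PI p l r G) {τ : ℕ} (hτ : NCol G τ) (Y : V → Prop)
    (hY : ∀ x, Y x → p x < l x ∧ l x ≤ r x) (N : ℕ) (hN0 : 0 < N)
    (hN : ∀ y, Y y → ¬ ∃ fam : Fin N → V,
      (∀ a b s, Mem l r s (fam a) → Mem l r s (fam b) → a = b) ∧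
      ∀ a, Mem l r (p (fam a)) y ∧ Y (fam a)) :
    Col (fun x y => G.Adj x y ∧ Y x ∧ Y y) ((8 * N + 1) * (τ + 2)) := by
  classical
  cases nonempty_fintype V
  set b := blk (Rel l r Y) with hb
  have hc := Rel.conv l r Y
  set Q : V → ℕ := fun x => b (l x) with hQ
  -- the interval of a vertex meets at most two blocks
  have hI : ∀ x s, Y x → Mem l r s x → Q x ≤ b s ∧ b s ≤ Q x + 1 := by
    intro x s hx hs
    exact ⟨blk_mono hc hs.1, blk_le hc hs.1 ⟨x, hx, ⟨le_rfl, (hY x hx).2⟩, hs⟩⟩
  have hpQ : ∀ x, Y x → b (p x) ≤ Q x := fun x hx => blk_mono hc (hY x hx).1.le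
  -- few values
  have hfew : ∀ β : ℕ, (((univ.filter fun x => Y x ∧ b (p x) = β).image Q).card ≤ 2 * N) := by
    intro β
    by_contra hcon
    push Not at hcon
    set A := (univ.filter fun x => Y x ∧ b (p x) = β).image Q with hA
    have hval : ∀ a ∈ A, ∃ x, Y x ∧ b (p x) = β ∧ Q x = a := by
      intro a ha
      obtain ⟨x, hx, rfl⟩ := mem_image.1 ha
      exact ⟨x, (mem_filter.1 hx).2.1, (mem_filter.1 hx).2.2, rfl⟩
    rcases block_sub (l := l) (r := r) (W := Y) hp Y β with h | ⟨w, hw, h⟩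
    · have h1 : A.card ≤ 1 := by
        rw [card_le_one]
        intro a ha a' ha'
        obtain ⟨x, h1, h2, rfl⟩ := hval a ha
        obtain ⟨x', h1', h2', rfl⟩ := hval a' ha'
        rw [h x x' h1 h1' h2 h2']
      omega
    · let f := A.orderEmbOfFin rfl
      have hf : ∀ i : Fin N, ∃ x, Y x ∧ b (p x) = β ∧
          Q x = f ⟨2 * i, by omega⟩ := fun i => hval _ (A.orderEmbOfFin_mem rfl _)
      choose fam g1 g2 g3 using hf
      have key : ∀ a c s, a < c → Mem l r s (fam a) → Mem l r s (fam c) → False := by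
        intro a c s hac h1 h2
        have h3 := (hI _ s (g1 a) h1).2
        have h4 := (hI _ s (g1 c) h2).1
        rw [g3] at h3 h4
        have h5 : f ⟨2 * a, by omega⟩ < f ⟨2 * a + 1, by omega⟩ :=
          f.strictMono (by rw [Fin.lt_def]; simp)
        have h6 : f ⟨2 * a + 1, by omega⟩ < f ⟨2 * c, by omega⟩ :=
          f.strictMono (by rw [Fin.lt_def] at hac ⊢; simp only; omega)
        omega
      refine hN w hw ⟨fam, fun a c s h1 h2 => ?_, fun a => ⟨h _ (g1 a) (g2 a), g1 a⟩⟩
      rcases lt_trichotomy a c with h3 | h3 | h3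
      · exact absurd h2 (fun h2 => key a c s h3 h1 h2)
      · exact h3
      · exact absurd h1 (fun h1 => key c a s h3 h2 h1)
  -- the values of the ends of the edges
  set K := (univ.sup Q) + 1 with hK
  have hQK : ∀ x, Q x < K := fun x => Nat.lt_succ_of_le (le_sup (mem_univ x))
  let E : Fin K → Fin K → Prop := fun q θ => q ≠ θ ∧ ∃ x y, Y x ∧ Y y ∧ Mem l r (p x) y ∧
    Q y = q ∧ Q x = θ
  have hE : Col E (2 * (4 * N) + 1) := by
    refine col_outdeg E (fun a h => h.1 rfl) (4 * N) fun q => ?_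
    set B := (univ.filter fun x => Y x ∧ b (p x) = (q : ℕ)).image Q ∪
      (univ.filter fun x => Y x ∧ b (p x) = (q : ℕ) + 1).image Q with hB
    have h1 : B.card ≤ 4 * N := by
      refine (card_union_le _ _).trans ?_
      have h2 := hfew q
      have h3 := hfew (q + 1)
      omega
    have h2 : (Fin.val '' {θ | E q θ}) ⊆ (B : Set ℕ) := by
      rintro _ ⟨θ, ⟨-, x, y, hx, hy, hxy, h3, h4⟩, rfl⟩
      have h5 := hI y _ hy hxy
      rw [h3] at h5
      rw [mem_coe, hB, mem_union, mem_image, mem_image]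
      rcases Nat.lt_or_ge (b (p x)) ((q : ℕ) + 1) with h6 | h6
      · exact Or.inl ⟨x, mem_filter.2 ⟨mem_univ _, hx, by omega⟩, h4⟩
      · exact Or.inr ⟨x, mem_filter.2 ⟨mem_univ _, hx, by omega⟩, h4⟩
    have h3 := Set.ncard_le_ncard h2 (Set.toFinite _)
    rw [Set.ncard_image_of_injective _ Fin.val_injective, Set.ncard_coe_finset] at h3
    exact h3.trans h1
  obtain ⟨κ, k1, k2⟩ := hE
  have hc1 : Col (fun x y => G.Adj x y ∧ Y x ∧ Y y ∧ Q x ≠ Q y) (8 * N + 1) := by
    refine ⟨fun x => κ ⟨Q x, hQK x⟩, fun x => (k1 _).trans_eq (by ring), fun x y hxy => ?_⟩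
    obtain ⟨hadj, hx, hy, hne⟩ := hxy
    rcases ((hG x y).1 hadj).2 with h | h
    · exact (k2 ⟨Q y, hQK y⟩ ⟨Q x, hQK x⟩ ⟨fun h => hne (congrArg Fin.val h).symm, x, y, hx, hy, h,
        rfl, rfl⟩).symm
    · exact k2 ⟨Q x, hQK x⟩ ⟨Q y, hQK y⟩ ⟨fun h => hne (congrArg Fin.val h), y, x, hy, hx, h,
        rfl, rfl⟩
  obtain ⟨γ, γ1, γ2⟩ := block_col hp hG hτ Y
  have hc2 : Col (fun x y => G.Adj x y ∧ Y x ∧ Y y ∧ Q x = Q y) (τ + 2) := by
    refine ⟨fun x => if b (p x) = Q x then γ x else τ + 1, fun x => ?_, fun x y hxy => ?_⟩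
    · simp only
      split_ifs
      · exact (γ1 x).trans (Nat.lt_succ_self _)
      · omega
    · obtain ⟨hadj, hx, hy, he⟩ := hxy
      have key : ∀ x y, Y x → Y y → Q x = Q y → Mem l r (p x) y → b (p x) = Q x := by
        intro x y hx hy he h
        have h1 := (hI y _ hy h).1
        have h2 := hpQ x hx
        omega
      simp only
      split_ifs with h1 h2 h2
      · exact γ2 x y ⟨hadj, by rw [← hb, h1, h2, he]⟩
      · exact (γ1 x).ne
      · exact (γ1 y).ne'
      · rcases ((hG x y).1 hadj).2 with h | h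
        · exact absurd (key x y hx hy he h) h1
        · exact absurd (key y x hy hx he.symm h) h2
  refine (hc1.prod hc2).mono ?_ le_rfl
  rintro x y ⟨hadj, hx, hy⟩
  by_cases he : Q x = Q y
  · exact Or.inr ⟨hadj, hx, hy, he⟩
  · exact Or.inl ⟨hadj, hx, hy, he⟩

/-- the number of colours for a class -/
def bd1 (M N τ : ℕ) : ℕ := (M + 1) * ((8 * N + 1) * (τ + 2))

/-- colouring a class with bounded levels -/
theorem col_X [Finite V] {p l r : V → ℕ} {G : SimpleGraph V} (hp : Function.Injective p)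
    (hG : PI p l r G) {τ : ℕ} (hτ : NCol G τ) (X : V → Prop)
    (hX : ∀ x, X x → p x < l x ∧ l x ≤ r x) (M N : ℕ) (hN0 : 0 < N)
    (hlev : ∀ x, ¬ LevP p l r X N M x) :
    Col (fun x y => G.Adj x y ∧ X x ∧ X y) (bd1 M N τ) := by
  classical
  have hj : ∀ x, ∃ j, j < M + 1 ∧ (X x → LevP p l r X N j x ∧ ¬ LevP p l r X N (j + 1) x) := by
    intro x
    by_cases hx : X x
    · have h0 : ∃ j, ¬ LevP p l r X N (j + 1) x := by
        refine ⟨M - 1, fun h => hlev x ?_⟩
        rcases Nat.eq_zero_or_pos M with hM | hM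
        · exact absurd (show LevP p l r X N M x by rw [hM]; exact hx) (hlev x)
        · have e : M - 1 + 1 = M := by omega
          rwa [e] at h
      refine ⟨Nat.find h0, ?_, fun _ => ⟨?_, Nat.find_spec h0⟩⟩
      · have : Nat.find h0 ≤ M - 1 := Nat.find_min' h0 fun h => hlev x (by
          rcases Nat.eq_zero_or_pos M with hM | hM
          · exact absurd (show LevP p l r X N M x by rw [hM]; exact hx) (hlev x)
          · have e : M - 1 + 1 = M := by omega
            rwa [e] at h)
        omega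
      · rcases h : Nat.find h0 with _ | j
        · exact hx
        · have := Nat.find_min h0 (m := j) (by omega)
          push Not at this
          exact this
    · exact ⟨0, by omega, fun h => absurd h hx⟩
  choose j j1 j2 using hj
  have hc : ∀ i, Col (fun x y => G.Adj x y ∧
      (LevP p l r X N i x ∧ ¬ LevP p l r X N (i + 1) x) ∧
      (LevP p l r X N i y ∧ ¬ LevP p l r X N (i + 1) y)) ((8 * N + 1) * (τ + 2)) := by
    intro i
    refine col_level hp hG hτ (fun x => LevP p l r X N i x ∧ ¬ LevP p l r X N (i + 1) x)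
      (fun x hx => hX x hx.1.mem) N hN0 ?_
    rintro y ⟨hy, hy'⟩ ⟨fam, f1, f2⟩
    exact hy' ⟨hy.mem, fam, f1, fun a => ⟨(f2 a).1, (f2 a).2.1⟩⟩
  choose c c1 c2 using hc
  have h1 : Col (fun x y => j x ≠ j y) (M + 1) := ⟨j, j1, fun x y h => h⟩
  have h2 : Col (fun x y => G.Adj x y ∧ X x ∧ X y ∧ j x = j y) ((8 * N + 1) * (τ + 2)) := by
    refine ⟨fun x => c (j x) x, fun x => c1 _ _, fun x y hxy => ?_⟩
    obtain ⟨hadj, hx, hy, he⟩ := hxy
    simp only
    rw [he]
    exact c2 (j y) x y ⟨hadj, by rw [← he]; exact j2 x hx, j2 y hy⟩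
  refine (h1.prod h2).mono ?_ le_rfl
  rintro x y ⟨hadj, hx, hy⟩
  by_cases he : j x = j y
  · exact Or.inr ⟨hadj, hx, hy, he⟩
  · exact Or.inl he

/-- the number of colours for the vertices with their point before the interval -/
def bd2 (M N τ : ℕ) : ℕ := 2 * (τ + 1) * bd1 M N τ

/-- colouring the vertices with the point before the interval -/
theorem col_B [Finite V] {p l r : V → ℕ} {G : SimpleGraph V} (hp : Function.Injective p)
    (hG : PI p l r G) {τ : ℕ} (hτ : NCol G τ) (M : ℕ) (T : SimpleGraph (Fin (M + 1)))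
    (hT : T.IsTree) (hTG : ¬ T.IsIndContained G) (N : ℕ)
    (hN : 3 * ((M + 1) * (M + 1)) + 1 ≤ N) :
    Col (fun x y => G.Adj x y ∧ (p x < l x ∧ l x ≤ r x) ∧ (p y < l y ∧ l y ≤ r y))
      (bd2 M N τ) := by
  classical
  set b := blk (Rel l r fun _ => True) with hb
  have hc := Rel.conv l r fun _ => True
  obtain ⟨γ, γ1, γ2⟩ := block_col hp hG hτ fun _ => True
  set g : V → ℕ := fun x => b (p x) % 2 * (τ + 1) + γ x with hg
  have hg1 : ∀ x, g x < 2 * (τ + 1) := by
    intro x
    have h1 := γ1 x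
    have h2 : b (p x) % 2 ≤ 1 := by omega
    have h3 : b (p x) % 2 * (τ + 1) ≤ 1 * (τ + 1) := Nat.mul_le_mul_right _ h2
    simp only [hg]
    omega
  have hg2 : ∀ x y, g x = g y → γ x = γ y ∧ b (p x) % 2 = b (p y) % 2 := by
    intro x y h
    simp only [hg] at h
    have h1 := γ1 x
    have h2 := γ1 y
    rcases Nat.mod_two_eq_zero_or_one (b (p x)) with h3 | h3 <;>
      rcases Nat.mod_two_eq_zero_or_one (b (p y)) with h4 | h4 <;>
      rw [h3, h4] at h ⊢ <;> simp at h ⊢ <;> omega
  have hX : ∀ i, Col (fun x y => G.Adj x y ∧ ((p x < l x ∧ l x ≤ r x) ∧ g x = i) ∧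
      ((p y < l y ∧ l y ≤ r y) ∧ g y = i)) (bd1 M N τ) := by
    intro i
    refine col_X hp hG hτ (fun x => (p x < l x ∧ l x ≤ r x) ∧ g x = i) (fun x hx => hx.1) M N
      (by omega) fun x hx => hTG ?_
    refine tree_of_lev M T hT N hN p l r G _ hG (fun x hx => hx.1) ?_ x hx
    rintro x y z ⟨-, hx⟩ ⟨-, hy⟩ - hadj h1 h2
    obtain ⟨h3, h4⟩ := hg2 x y (hx.trans hy.symm)
    have h5 : b (p x) ≠ b (p y) := fun h => γ2 x y ⟨hadj, h⟩ h3
    rcases le_total (p x) (p y) with h | h
    · have h6 := blk_mono hc h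
      have h7 := blk_le hc h ⟨z, trivial, h1, h2⟩
      rw [← hb] at h6 h7
      omega
    · have h6 := blk_mono hc h
      have h7 := blk_le hc h ⟨z, trivial, h2, h1⟩
      rw [← hb] at h6 h7
      omega
  choose c c1 c2 using hX
  have h1 : Col (fun x y => g x ≠ g y) (2 * (τ + 1)) := ⟨g, hg1, fun x y h => h⟩
  have h2 : Col (fun x y => G.Adj x y ∧ (p x < l x ∧ l x ≤ r x) ∧ (p y < l y ∧ l y ≤ r y) ∧
      g x = g y) (bd1 M N τ) := by
    refine ⟨fun x => c (g x) x, fun x => c1 _ _, fun x y hxy => ?_⟩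
    obtain ⟨hadj, hx, hy, he⟩ := hxy
    simp only
    rw [he]
    exact c2 (g y) x y ⟨hadj, ⟨hx, he⟩, hy, rfl⟩
  refine (h1.prod h2).mono ?_ le_rfl
  rintro x y ⟨hadj, hx, hy⟩
  by_cases he : g x = g y
  · exact Or.inr ⟨hadj, hx, hy, he⟩
  · exact Or.inl he

/-- colouring the vertices with the point behind the interval -/
theorem col_C [Finite V] {p l r : V → ℕ} {G : SimpleGraph V} (hp : Function.Injective p)
    (hG : PI p l r G) {τ : ℕ} (hτ : NCol G τ) (M : ℕ) (T : SimpleGraph (Fin (M + 1)))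
    (hT : T.IsTree) (hTG : ¬ T.IsIndContained G) (N : ℕ)
    (hN : 3 * ((M + 1) * (M + 1)) + 1 ≤ N) :
    Col (fun x y => G.Adj x y ∧ (r x < p x ∧ l x ≤ r x) ∧ (r y < p y ∧ l y ≤ r y))
      (bd2 M N τ) := by
  classical
  cases nonempty_fintype V
  set K := (univ.sup p) + (univ.sup l) + (univ.sup r) with hK
  have e1 : ∀ x, p x ≤ K := fun x => by
    have : p x ≤ univ.sup p := le_sup (mem_univ x)
    omega
  have e2 : ∀ x, l x ≤ K := fun x => by
    have : l x ≤ univ.sup l := le_sup (mem_univ x)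
    omega
  have e3 : ∀ x, r x ≤ K := fun x => by
    have : r x ≤ univ.sup r := le_sup (mem_univ x)
    omega
  have h1 := col_B (p := fun x => K - p x) (l := fun x => K - r x) (r := fun x => K - l x)
    (G := G) (τ := τ) (fun x y hxy => hp (by
      have h1 := e1 x
      have h2 := e1 y
      simp only at hxy
      omega)) (by
      intro x y
      rw [hG x y]
      have h1 := e1 x
      have h2 := e1 y
      have h3 := e2 x
      have h4 := e2 y
      have h5 := e3 x
      have h6 := e3 y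
      unfold Mem
      simp only
      constructor
      · rintro ⟨h7, h8 | h8⟩
        · exact ⟨h7, Or.inl (by omega)⟩
        · exact ⟨h7, Or.inr (by omega)⟩
      · rintro ⟨h7, h8 | h8⟩
        · exact ⟨h7, Or.inl (by omega)⟩
        · exact ⟨h7, Or.inr (by omega)⟩) hτ M T hT hTG N hN
  refine h1.mono ?_ le_rfl
  rintro x y ⟨hadj, hx, hy⟩
  have h1 := e1 x
  have h2 := e1 y
  have h3 := e2 x
  have h4 := e2 y
  have h5 := e3 x
  have h6 := e3 y
  exact ⟨hadj, by omega, by omega⟩

/-- the number of colours -/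
def bd3 (M N τ : ℕ) : ℕ := 4 * (2 * (τ + 1) * (bd2 M N τ * bd2 M N τ))

theorem col_all [Finite V] {p l r : V → ℕ} {G : SimpleGraph V} (hp : Function.Injective p)
    (hG : PI p l r G) {τ : ℕ} (hτ : NCol G τ) (M : ℕ) (T : SimpleGraph (Fin (M + 1)))
    (hT : T.IsTree) (hTG : ¬ T.IsIndContained G) (N : ℕ)
    (hN : 3 * ((M + 1) * (M + 1)) + 1 ≤ N) : Col G.Adj (bd3 M N τ) := by
  classical
  let k : V → ℕ := fun x => if r x < l x then 0 else if p x < l x then 1 else
    if r x < p x then 2 else 3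
  have hk : ∀ x, k x < 4 := by
    intro x
    simp only [k]
    split_ifs <;> omega
  have h0 : Col (fun x y => k x ≠ k y) 4 := ⟨k, hk, fun x y h => h⟩
  refine (h0.prod ((col_A hp hG hτ).prod ((col_B hp hG hτ M T hT hTG N hN).prod
    (col_C hp hG hτ M T hT hTG N hN)))).mono ?_ le_rfl
  intro x y hadj
  by_cases he : k x = k y
  · right
    have h1 := ((hG x y).1 hadj).2
    simp only [k] at he
    unfold Mem at h1 ⊢
    split_ifs at he with h2 h3 h4 h5 h6 h7 <;> first
      | (exfalso; omega)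
      | (left; exact ⟨hadj, by omega, by omega⟩)
      | (right; left; exact ⟨hadj, by omega, by omega⟩)
      | (right; right; exact ⟨hadj, by omega, by omega⟩)
  · exact Or.inl he

/-- the bound -/
def bd (M N : ℕ) : ℕ → ℕ
  | 0 => 0
  | w + 1 => bd3 M N (bd M N w + 1)

theorem col_main (M : ℕ) (T : SimpleGraph (Fin (M + 1)))
    (hT : T.IsTree) (N : ℕ) (hN : 3 * ((M + 1) * (M + 1)) + 1 ≤ N) : ∀ (w : ℕ) (V : Type)
    [Finite V] (p l r : V → ℕ) (G : SimpleGraph V), Function.Injective p → PI p l r G →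
    ¬ T.IsIndContained G → (∀ S : Finset V, G.IsClique (S : Set V) → S.card ≤ w) →
    Col G.Adj (bd M N w) := by
  classical
  intro w
  induction w with
  | zero =>
    intro V _ p l r G hp hG hTG hw
    have : ∀ v : V, False := by
      intro v
      have := hw {v} (by simp)
      simp at this
    exact ⟨fun _ => 0, fun v => (this v).elim, fun v => (this v).elim⟩
  | succ w ih =>
    intro V _ p l r G hp hG hTG hw
    refine col_all hp hG (fun v => ?_) M T hT hTG N hN
    obtain ⟨c, c1, c2⟩ := ih {x // G.Adj v x} (fun x => p x) (fun x => l x) (fun x => r x)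
      (G.comap Subtype.val) (fun x y hxy => Subtype.ext (hp hxy)) (by
        intro x y
        rw [SimpleGraph.comap_adj, hG]
        unfold Mem
        constructor
        · rintro ⟨h1, h2⟩
          exact ⟨fun h => h1 (congrArg _ h), h2⟩
        · rintro ⟨h1, h2⟩
          exact ⟨fun h => h1 (Subtype.ext h), h2⟩) (by
        rintro ⟨φ⟩
        exact hTG ⟨φ.trans (SimpleGraph.Embedding.comap ⟨Subtype.val, Subtype.val_injective⟩ G)⟩)
      (by
        intro S hS
        have h1 : G.IsClique ((insert v (S.image Subtype.val) : Finset V) : Set V) := by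
          rw [coe_insert]
          refine SimpleGraph.IsClique.insert ?_ ?_
          · intro x hx y hy hxy
            rw [mem_coe, mem_image] at hx hy
            obtain ⟨a, ha, rfl⟩ := hx
            obtain ⟨b, hb, rfl⟩ := hy
            exact hS ha hb fun h => hxy (congrArg _ h)
          · intro x hx _
            rw [mem_coe, mem_image] at hx
            obtain ⟨a, ha, rfl⟩ := hx
            exact a.2
        have h2 := hw _ h1
        rw [card_insert_of_notMem (by
          intro h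
          obtain ⟨a, ha, h⟩ := mem_image.1 h
          exact G.loopless.irrefl v (by have := a.2; rwa [h] at this)),
          card_image_of_injective _ Subtype.val_injective] at h2
        omega)
    refine ⟨fun x => if h : G.Adj v x then c ⟨x, h⟩ else 0, fun x => ?_, fun x y hxy => ?_⟩
    · simp only
      split_ifs with h
      · exact (c1 _).trans (Nat.lt_succ_self _)
      · omega
    · obtain ⟨h1, h2, h3⟩ := hxy
      simp only
      rw [dif_pos h2, dif_pos h3]
      exact c2 ⟨x, h2⟩ ⟨y, h3⟩ h1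

end Pool.Agent.T9h70.Pt
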