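import Pool.Agent.T9h70.Pt.Levels
import Pool.Agent.H367R3.GSForest

set_option autoImplicit false

namespace Pool.Agent.T9h70.Pt

open Finset Pool.Agent.T9h70.Box

/-- one linear order -/
theorem gs_one (M : ℕ) (T : SimpleGraph (Fin (M + 1)))
    (hT : T.IsTree) (N : ℕ) (hN : 3 * ((M + 1) * (M + 1)) + 1 ≤ N) (w : ℕ) (W : Type)
    [Finite W] [LinearOrder W] (H : SimpleGraph W) (I : W → Set W)
    (hI : ∀ v, (I v).OrdConnected) (hH : ∀ x y, H.Adj x y ↔ x ≠ y ∧ (x ∈ I y ∨ y ∈ I x))
    (hTH : ¬ T.IsIndContained H) (hw : ∀ S : Finset W, H.IsClique (S : Set W) → S.card ≤ w) :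
    Col H.Adj (bd M N w) := by
  classical
  cases nonempty_fintype W
  let p : W → ℕ := fun v => (univ.filter fun u => u < v).card
  have hp : StrictMono p := by
    intro u v huv
    refine card_lt_card ?_
    rw [ssubset_iff_of_subset (fun z hz => by
      rw [mem_filter] at hz ⊢
      exact ⟨hz.1, hz.2.trans huv⟩)]
    exact ⟨u, mem_filter.2 ⟨mem_univ _, huv⟩, fun h => lt_irrefl _ (mem_filter.1 h).2⟩
  let S : W → Finset W := fun v => univ.filter fun u => u ∈ I v
  have key : ∀ v, ∃ l r : ℕ, ∀ x, x ∈ I v ↔ l ≤ p x ∧ p x ≤ r := by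
    intro v
    rcases (S v).eq_empty_or_nonempty with h | h
    · refine ⟨1, 0, fun x => ⟨fun hx => ?_, fun hx => by omega⟩⟩
      have h1 : x ∈ S v := mem_filter.2 ⟨mem_univ _, hx⟩
      rw [h] at h1
      exact absurd h1 (notMem_empty x)
    · obtain ⟨a, ha, ha'⟩ := exists_min_image (S v) p h
      obtain ⟨b, hb, hb'⟩ := exists_max_image (S v) p h
      refine ⟨p a, p b, fun x => ⟨fun hx => ?_, fun hx => ?_⟩⟩
      · have h1 : x ∈ S v := mem_filter.2 ⟨mem_univ _, hx⟩
        exact ⟨ha' x h1, hb' x h1⟩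
      · exact (hI v).out (mem_filter.1 ha).2 (mem_filter.1 hb).2
          ⟨hp.le_iff_le.1 hx.1, hp.le_iff_le.1 hx.2⟩
  choose l r hlr using key
  exact col_main M T hT N hN w W p l r H hp.injective (fun x y => by
    rw [hH x y, hlr y x, hlr x y]
    rfl) hTH hw

/-- restriction of a colouring problem to a subtype -/
theorem col_subtype {V : Type} (G : SimpleGraph V) (P : V → Prop) {n : ℕ}
    (h : Col (G.comap (Subtype.val : {v // P v} → V)).Adj n) :
    Col (fun x y => G.Adj x y ∧ P x ∧ P y) (n + 1) := by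
  classical
  obtain ⟨d, d1, d2⟩ := h
  refine ⟨fun x => if h : P x then d ⟨x, h⟩ else 0, fun x => ?_, fun x y hxy => ?_⟩
  · simp only
    split_ifs with h
    · exact (d1 _).trans (Nat.lt_succ_self _)
    · omega
  · obtain ⟨h1, h2, h3⟩ := hxy
    simp only
    rw [dif_pos h2, dif_pos h3]
    exact d2 ⟨x, h2⟩ ⟨y, h3⟩ h1

/-- the bound -/
def bdc (M N : ℕ) : ℕ → ℕ
  | 0 => 0
  | w + 1 => 2 * ((bd M N (w + 1) + 1) * (2 * (bdc M N w + 1)))

/-- one linear order, intervals and complements of intervals -/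
theorem gs_mixed (M : ℕ) (T : SimpleGraph (Fin (M + 1)))
    (hT : T.IsTree) (N : ℕ) (hN : 3 * ((M + 1) * (M + 1)) + 1 ≤ N) : ∀ (w : ℕ) (W : Type)
    [Finite W] [LinearOrder W] (H : SimpleGraph W) (I : W → Set W),
    (∀ v, (I v).OrdConnected ∨ (I v)ᶜ.OrdConnected) →
    (∀ x y, H.Adj x y ↔ x ≠ y ∧ (x ∈ I y ∨ y ∈ I x)) →
    ¬ T.IsIndContained H → (∀ S : Finset W, H.IsClique (S : Set W) → S.card ≤ w) →
    Col H.Adj (bdc M N w) := by
  classical
  intro w
  induction w with
  | zero =>
    intro W _ _ H I hI hH hTH hw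
    have : ∀ v : W, False := by
      intro v
      have := hw {v} (by simp)
      simp at this
    exact ⟨fun _ => 0, fun v => (this v).elim, fun v => (this v).elim⟩
  | succ w ih =>
    intro W _ _ H I hI hH hTH hw
    cases nonempty_fintype W
    have hsub : ∀ (P : W → Prop), (∀ x y : {v // P v}, (H.comap Subtype.val).Adj x y ↔
        x ≠ y ∧ (x ∈ (Subtype.val ⁻¹' I y : Set {v // P v}) ∨
          y ∈ (Subtype.val ⁻¹' I x : Set {v // P v}))) := by
      intro P x y
      rw [SimpleGraph.comap_adj, hH]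
      constructor
      · rintro ⟨h1, h2⟩
        exact ⟨fun h => h1 (congrArg _ h), h2⟩
      · rintro ⟨h1, h2⟩
        exact ⟨fun h => h1 (Subtype.ext h), h2⟩
    have hTsub : ∀ (P : W → Prop),
        ¬ T.IsIndContained (H.comap (Subtype.val : {v // P v} → W)) := by
      rintro P ⟨φ⟩
      exact hTH ⟨φ.trans (SimpleGraph.Embedding.comap ⟨Subtype.val, Subtype.val_injective⟩ H)⟩
    have hcl : ∀ (P : W → Prop) (S : Finset {v // P v}),
        (H.comap Subtype.val).IsClique (S : Set {v // P v}) →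
        H.IsClique ((S.image Subtype.val : Finset W) : Set W) := by
      intro P S hS x hx y hy hxy
      rw [mem_coe, mem_image] at hx hy
      obtain ⟨a, ha, rfl⟩ := hx
      obtain ⟨b, hb, rfl⟩ := hy
      exact hS ha hb fun h => hxy (congrArg _ h)
    rcases isEmpty_or_nonempty W with hW | hW
    · exact ⟨fun _ => 0, fun v => hW.elim v, fun v => hW.elim v⟩
    obtain ⟨z, hz⟩ : ∃ z : W, ∀ x, z ≤ x := by
      obtain ⟨z, -, hz⟩ := exists_min_image (univ : Finset W) id univ_nonempty
      exact ⟨z, fun x => hz x (mem_univ x)⟩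
    set P : W → Prop := fun v => (I v).OrdConnected with hP
    have hnP : ∀ v, ¬ P v → v = z ∨ H.Adj z v := by
      intro v hv
      by_cases hvz : v = z
      · exact Or.inl hvz
      right
      refine (hH z v).2 ⟨fun h => hvz h.symm, Or.inl ?_⟩
      by_contra hzv
      have hc := (hI v).resolve_left hv
      refine hv ⟨fun x hx y hy t ht => ?_⟩
      by_contra ht'
      exact hc.out (show z ∈ (I v)ᶜ from hzv) (show t ∈ (I v)ᶜ from ht') ⟨hz x, ht.1⟩ hx
    have c1 : Col (fun x y => ¬ (P x ↔ P y)) 2 := by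
      refine ⟨fun x => if P x then 1 else 0, fun x => ?_, fun x y hxy => ?_⟩
      · simp only
        split_ifs <;> omega
      · simp only
        split_ifs with h1 h2 h2
        · exact absurd (iff_of_true h1 h2) hxy
        · omega
        · omega
        · exact absurd (iff_of_false h1 h2) hxy
    have c2 : Col (fun x y => H.Adj x y ∧ P x ∧ P y) (bd M N (w + 1) + 1) := by
      refine col_subtype H P (gs_one M T hT N hN (w + 1) {v // P v} _
        (fun x => Subtype.val ⁻¹' I x) (fun v => v.2.preimage_mono (Subtype.mono_coe _))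
        (hsub P) (hTsub P) fun S hS => ?_)
      have h2 := hw _ (hcl P S hS)
      rwa [card_image_of_injective _ Subtype.val_injective] at h2
    have c3 : Col (fun x y => x ≠ y ∧ (x = z ∨ y = z)) 2 := by
      refine ⟨fun x => if x = z then 1 else 0, fun x => ?_, fun x y hxy => ?_⟩
      · simp only
        split_ifs <;> omega
      · obtain ⟨h0, h1 | h1⟩ := hxy
        · subst h1
          simp only [if_true]
          rw [if_neg h0.symm]
          omega
        · subst h1
          simp only [if_true]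
          rw [if_neg h0]
          omega
    have c4 : Col (fun x y => H.Adj x y ∧ H.Adj z x ∧ H.Adj z y) (bdc M N w + 1) := by
      refine col_subtype H (fun x => H.Adj z x) (ih {v // H.Adj z v} _
        (fun x => Subtype.val ⁻¹' I x) (fun v => ?_) (hsub _) (hTsub _) fun S hS => ?_)
      · rcases hI v with h | h
        · exact Or.inl (h.preimage_mono (Subtype.mono_coe _))
        · exact Or.inr (h.preimage_mono (Subtype.mono_coe _))
      · have h1 : H.IsClique ((insert z (S.image Subtype.val) : Finset W) : Set W) := by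
          rw [coe_insert]
          refine SimpleGraph.IsClique.insert (hcl _ S hS) ?_
          intro x hx _
          rw [mem_coe, mem_image] at hx
          obtain ⟨a, ha, rfl⟩ := hx
          exact a.2
        have h2 := hw _ h1
        rw [card_insert_of_notMem (by
          intro h
          obtain ⟨a, ha, h⟩ := mem_image.1 h
          exact H.loopless.irrefl z (by have := a.2; rwa [h] at this)),
          card_image_of_injective _ Subtype.val_injective] at h2
        omega
    refine (c1.prod (c2.prod (c3.prod c4))).mono ?_ le_rfl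
    intro x y hxy
    by_cases h1 : P x ↔ P y
    · right
      by_cases h2 : P x
      · exact Or.inl ⟨hxy, h2, h1.1 h2⟩
      · right
        have h3 : ¬ P y := fun h => h2 (h1.2 h)
        rcases hnP x h2 with h4 | h4
        · exact Or.inl ⟨hxy.ne, Or.inl h4⟩
        · rcases hnP y h3 with h5 | h5
          · exact Or.inl ⟨hxy.ne, Or.inr h5⟩
          · exact Or.inr ⟨hxy, h4, h5⟩
    · exact Or.inl h1

/-- several linear orders -/
theorem gs_orders (m : ℕ) (F : SimpleGraph (Fin m)) (hF : F.IsAcyclic) : ∃ g : ℕ → ℕ,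
    ∀ (k : ℕ) (V : Type) [Finite V] (G : SimpleGraph V) (L : Fin k → LinearOrder V)
      (I : V → Set V) (c : V → Fin k), (∀ v, @Set.OrdConnected V (L (c v)).toPreorder (I v) ∨
        @Set.OrdConnected V (L (c v)).toPreorder (I v)ᶜ) →
      (∀ x y, c x = c y → (G.Adj x y ↔ x ≠ y ∧ (x ∈ I y ∨ y ∈ I x))) →
      ¬ F.IsIndContained G → Col G.Adj (k * g G.cliqueNum) := by
  classical
  obtain ⟨T, hT, ⟨ι⟩⟩ := Pool.Agent.H367R3.forest_in_tree F hF
  set N := 3 * ((m + 1) * (m + 1)) + 1 with hN
  refine ⟨fun w => bdc m N w + 1, fun k V _ G L I c hI hG hFG => ?_⟩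
  cases nonempty_fintype V
  have hTG : ¬ T.IsIndContained G := by
    rintro ⟨φ⟩
    exact hFG ⟨ι.trans φ⟩
  have h0 : Col (fun x y => c x ≠ c y) k :=
    ⟨fun x => c x, fun x => (c x).2, fun x y h h' => h (Fin.ext h')⟩
  have h1 : ∀ i, Col (fun x y => G.Adj x y ∧ c x = i ∧ c y = i) (bdc m N G.cliqueNum + 1) := by
    intro i
    let _ := L i
    obtain ⟨d, d1, d2⟩ := gs_mixed m T hT N le_rfl G.cliqueNum {v // c v = i}
      (G.comap Subtype.val) (fun x => Subtype.val ⁻¹' I x) (by
        rintro ⟨v, hv⟩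
        have h := hI v
        rw [hv] at h
        rcases h with h | h
        · exact Or.inl (h.preimage_mono (Subtype.mono_coe _))
        · exact Or.inr (h.preimage_mono (Subtype.mono_coe _))) (by
        intro x y
        rw [SimpleGraph.comap_adj, hG _ _ (x.2.trans y.2.symm)]
        constructor
        · rintro ⟨h1, h2⟩
          exact ⟨fun h => h1 (congrArg _ h), h2⟩
        · rintro ⟨h1, h2⟩
          exact ⟨fun h => h1 (Subtype.ext h), h2⟩) (by
        rintro ⟨φ⟩
        exact hTG ⟨φ.trans (SimpleGraph.Embedding.comap ⟨Subtype.val, Subtype.val_injective⟩ G)⟩)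
      (by
        intro S hS
        have h1 : G.IsClique ((S.image Subtype.val : Finset V) : Set V) := by
          intro x hx y hy hxy
          rw [mem_coe, mem_image] at hx hy
          obtain ⟨a, ha, rfl⟩ := hx
          obtain ⟨b, hb, rfl⟩ := hy
          exact hS ha hb fun h => hxy (congrArg _ h)
        have h2 := h1.card_le_cliqueNum
        rwa [card_image_of_injective _ Subtype.val_injective] at h2)
    refine ⟨fun x => if h : c x = i then d ⟨x, h⟩ else 0, fun x => ?_, fun x y hxy => ?_⟩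
    · simp only
      split_ifs with h
      · exact (d1 _).trans (Nat.lt_succ_self _)
      · omega
    · obtain ⟨h1, h2, h3⟩ := hxy
      simp only
      rw [dif_pos h2, dif_pos h3]
      exact d2 ⟨x, h2⟩ ⟨y, h3⟩ h1
  choose d d1 d2 using h1
  have h2 : Col (fun x y => G.Adj x y ∧ c x = c y) (bdc m N G.cliqueNum + 1) :=
    ⟨fun x => d (c x) x, fun x => d1 _ _, fun x y hxy => by
      simp only
      rw [hxy.2]
      exact d2 (c y) x y ⟨hxy.1, hxy.2, rfl⟩⟩
  refine (h0.prod h2).mono ?_ le_rfl
  intro x y hxy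
  by_cases h : c x = c y
  · exact Or.inr ⟨hxy, h⟩
  · exact Or.inl h

/-- several linear orders and few exceptions -/
theorem gs_nearly (m : ℕ) (F : SimpleGraph (Fin m)) (hF : F.IsAcyclic) : ∃ g : ℕ → ℕ,
    ∀ (k d : ℕ) (V : Type) [Finite V] (G : SimpleGraph V) (L : Fin k → LinearOrder V)
      (A I : V → Set V) (c : V → Fin k),
      (∀ v, @Set.OrdConnected V (L (c v)).toPreorder (I v) ∨
        @Set.OrdConnected V (L (c v)).toPreorder (I v)ᶜ) →
      (∀ v, (symmDiff (A v) (I v)).ncard ≤ d) →
      (∀ x y, G.Adj x y ↔ x ≠ y ∧ (x ∈ A y ∨ y ∈ A x)) →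
      ¬ F.IsIndContained G → G.Colorable (k * (2 * d + 1) * g G.cliqueNum) := by
  classical
  obtain ⟨g, hg⟩ := gs_orders m F hF
  refine ⟨g, fun k d V _ G L A I c hI hA hG hFG => ?_⟩
  cases nonempty_fintype V
  obtain ⟨κ, k1, k2⟩ := col_outdeg (fun y x : V => x ≠ y ∧ x ∈ symmDiff (A y) (I y))
    (fun a h => h.1 rfl) d (fun y => (Set.ncard_le_ncard (fun x hx => hx.2)
      (Set.toFinite _)).trans (hA y))
  obtain ⟨e, e1, e2⟩ := hg (k * (2 * d + 1)) V G
    (fun i => L (finProdFinEquiv.symm i).1) I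
    (fun v => finProdFinEquiv (c v, ⟨κ v, k1 v⟩)) (fun v => by
      have e : (finProdFinEquiv.symm (finProdFinEquiv
          (c v, (⟨κ v, k1 v⟩ : Fin (2 * d + 1))))).1 = c v := by
        rw [Equiv.symm_apply_apply]
      show @Set.OrdConnected V (L (finProdFinEquiv.symm (finProdFinEquiv
          (c v, (⟨κ v, k1 v⟩ : Fin (2 * d + 1))))).1).toPreorder (I v) ∨
        @Set.OrdConnected V (L (finProdFinEquiv.symm (finProdFinEquiv
          (c v, (⟨κ v, k1 v⟩ : Fin (2 * d + 1))))).1).toPreorder (I v)ᶜ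
      rw [e]
      exact hI v) (by
      intro x y hxy
      have h1 := finProdFinEquiv.injective hxy
      have h2 : κ x = κ y := congrArg (fun t : Fin k × Fin (2 * d + 1) => (t.2 : ℕ)) h1
      rw [hG]
      have key : ∀ x y : V, κ x = κ y → x ≠ y → (x ∈ A y ↔ x ∈ I y) := by
        intro x y h hne
        by_contra h3
        refine k2 y x ⟨hne, ?_⟩ h.symm
        rw [Set.mem_symmDiff]
        tauto
      constructor
      · rintro ⟨h3, h4⟩
        exact ⟨h3, by rwa [← key x y h2 h3, ← key y x h2.symm h3.symm]⟩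
      · rintro ⟨h3, h4⟩
        exact ⟨h3, by rwa [key x y h2 h3, key y x h2.symm h3.symm]⟩) hFG
  refine ⟨SimpleGraph.Coloring.mk (fun v => ⟨e v, e1 v⟩) ?_⟩
  intro x y hxy heq
  exact e2 x y hxy (congrArg Fin.val heq)

end Pool.Agent.T9h70.Pt
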