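import Pool.Agent.T9h70.Bic.Tree
import Pool.Agent.T9h70.Pt.Blocks

set_option autoImplicit false

namespace Pool.Agent.T9h70.Pt

open Finset Pool.Agent.T9h70.Bic

variable {V : Type}

/-- the levels -/
def LevP (p l r : V → ℕ) (X : V → Prop) (N : ℕ) : ℕ → V → Prop
  | 0, x => X x
  | j + 1, x => X x ∧ ∃ fam : Fin N → V, (∀ a b s, Mem l r s (fam a) → Mem l r s (fam b) → a = b) ∧
      ∀ a, Mem l r (p (fam a)) x ∧ LevP p l r X N j (fam a)

theorem LevP.mem {p l r : V → ℕ} {X : V → Prop} {N : ℕ} : ∀ {j : ℕ} {x : V},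
    LevP p l r X N j x → X x
  | 0, _, h => h
  | _ + 1, _, h => h.1

/-- the few bad pairs -/
theorem few_pairs {p l r : V → ℕ} {G : SimpleGraph V} (hG : PI p l r G) {N : ℕ} (u w : Fin N → V)
    (hu : ∀ a b s, Mem l r s (u a) → Mem l r s (u b) → a = b)
    (hw : ∀ a b s, Mem l r s (w a) → Mem l r s (w b) → a = b)
    (hw' : ∀ a, l (w a) ≤ r (w a)) (P : Finset (Fin N × Fin N))
    (hP : ∀ x ∈ P, u x.1 = w x.2 ∨ G.Adj (u x.1) (w x.2)) : P.card ≤ 3 * N := by
  classical
  have f1 : ∀ Q : Finset (Fin N × Fin N), (∀ x ∈ Q, ∀ y ∈ Q, x.1 = y.1 → x = y) → Q.card ≤ N := by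
    intro Q hQ
    have h1 := card_le_card_of_injOn (s := Q) (t := (univ : Finset (Fin N))) (fun x => x.1)
      (fun x _ => mem_coe.2 (mem_univ _)) (fun x hx y hy h => hQ x hx y hy h)
    rwa [card_univ, Fintype.card_fin] at h1
  have f2 : ∀ Q : Finset (Fin N × Fin N), (∀ x ∈ Q, ∀ y ∈ Q, x.2 = y.2 → x = y) → Q.card ≤ N := by
    intro Q hQ
    have h1 := card_le_card_of_injOn (s := Q) (t := (univ : Finset (Fin N))) (fun x => x.2)
      (fun x _ => mem_coe.2 (mem_univ _)) (fun x hx y hy h => hQ x hx y hy h)
    rwa [card_univ, Fintype.card_fin] at h1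
  have hsub : P ⊆ (P.filter fun x => u x.1 = w x.2) ∪ ((P.filter fun x => Mem l r (p (u x.1))
      (w x.2)) ∪ (P.filter fun x => Mem l r (p (w x.2)) (u x.1))) := by
    intro x hx
    rw [mem_union, mem_union, mem_filter, mem_filter, mem_filter]
    rcases hP x hx with h | h
    · exact Or.inl ⟨hx, h⟩
    · rcases ((hG _ _).1 h).2 with h | h
      · exact Or.inr (Or.inl ⟨hx, h⟩)
      · exact Or.inr (Or.inr ⟨hx, h⟩)
  have h1 := f1 (P.filter fun x => u x.1 = w x.2) (by
    rintro ⟨a, b⟩ hx ⟨a', b'⟩ hy (h : a = a')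
    have h2 := (mem_filter.1 hx).2
    have h3 := (mem_filter.1 hy).2
    simp only at h2 h3
    subst h
    have h4 : w b = w b' := h2.symm.trans h3
    have := hw b b' (l (w b)) ⟨le_rfl, hw' b⟩ (by rw [← h4]; exact ⟨le_rfl, hw' b⟩)
    rw [this])
  have h2 := f1 (P.filter fun x => Mem l r (p (u x.1)) (w x.2)) (by
    rintro ⟨a, b⟩ hx ⟨a', b'⟩ hy (h : a = a')
    have h2 := (mem_filter.1 hx).2
    have h3 := (mem_filter.1 hy).2
    simp only at h2 h3
    subst h
    rw [hw b b' _ h2 h3])
  have h3 := f2 (P.filter fun x => Mem l r (p (w x.2)) (u x.1)) (by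
    rintro ⟨a, b⟩ hx ⟨a', b'⟩ hy (h : b = b')
    have h2 := (mem_filter.1 hx).2
    have h3 := (mem_filter.1 hy).2
    simp only at h2 h3
    subst h
    rw [hu a a' _ h2 h3])
  have h4 := (card_le_card hsub).trans ((card_union_le _ _).trans
    (Nat.add_le_add_left (card_union_le _ _) _))
  omega

/-- a large level gives an induced tree -/
theorem tree_of_lev (M : ℕ) (T : SimpleGraph (Fin (M + 1))) (hT : T.IsTree) (N : ℕ)
    (hN : 3 * ((M + 1) * (M + 1)) + 1 ≤ N) (p l r : V → ℕ)
    (G : SimpleGraph V) (X : V → Prop) (hG : PI p l r G)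
    (hX : ∀ x, X x → p x < l x ∧ l x ≤ r x)
    (hXX : ∀ x y z, X x → X y → X z → G.Adj x y → Mem l r (p x) z → Mem l r (p y) z → False)
    (x : V) (hx : LevP p l r X N M x) : T.IsIndContained G := by
  classical
  obtain ⟨f, q, f1, f2, hp, f4⟩ := Pool.Agent.N471.EL.tree_enum M (Fin (M + 1)) T hT (by simp)
  set L := (M + 1) * (M + 1) with hL
  -- the families
  let fm : ℕ → (Fin (0 + 1) → V) → Fin N → V := fun j x =>
    if h : ∃ fam : Fin N → V, (∀ a b s, Mem l r s (fam a) → Mem l r s (fam b) → a = b) ∧
      ∀ a, Mem l r (p (fam a)) (x (Fin.last 0)) ∧ LevP p l r X N j (fam a)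
    then h.choose else fun _ => x (Fin.last 0)
  have hfm : ∀ j x, LevP p l r X N (j + 1) (x (Fin.last 0)) →
      (∀ a b s, Mem l r s (fm j x a) → Mem l r s (fm j x b) → a = b) ∧
      ∀ a, Mem l r (p (fm j x a)) (x (Fin.last 0)) ∧ LevP p l r X N j (fm j x a) := by
    intro j x hx
    have h := hx.2
    simp only [fm, dif_pos h]
    exact h.choose_spec
  set x0 : Fin (0 + 1) → V := fun _ => x with hx0
  have hlev : ∀ ω : Fin (M + 1) → Fin N, ∀ j ≤ M,
      LevP p l r X N (M - dp q j) (st q fm x0 ω j (Fin.last 0)) := by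
    intro ω j
    induction j using Nat.strong_induction_on with
    | _ j ih =>
      intro hjM
      rcases Nat.eq_zero_or_pos j with rfl | hj
      · rw [st_zero, dp_zero]
        exact hx
      · have h1 := hp j hj
        have h2 := ih (q j) h1 (by omega)
        have h3 := dp_le hp j
        have h4 := dp_pos hp hj
        have e : M - dp q (q j) = (M - dp q j) + 1 := by omega
        rw [e] at h2
        rw [st_pos hp fm x0 ω hj, shf_last]
        exact ((hfm _ _ h2).2 _).2
  -- a node and its parent
  have hlevp : ∀ ω : Fin (M + 1) → Fin N, ∀ j, 1 ≤ j → j ≤ M →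
      LevP p l r X N ((M - dp q j) + 1) (st q fm x0 ω (q j) (Fin.last 0)) := by
    intro ω j hj hjM
    have h1 := hp j hj
    have h2 := hlev ω (q j) (by omega)
    have h3 := dp_le hp j
    have h4 := dp_pos hp hj
    have e : M - dp q (q j) = (M - dp q j) + 1 := by omega
    rwa [e] at h2
  have hvt : ∀ (ω : Fin (M + 1) → Fin N) (j : ℕ), 1 ≤ j → st q fm x0 ω j (Fin.last 0) =
      fm (M - dp q j) (st q fm x0 ω (q j)) (ω (Fin.ofNat (M + 1) j)) := by
    intro ω j hj
    rw [st_pos hp fm x0 ω hj, shf_last]
  -- the pairs of nodes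
  let I : Finset (Fin (M + 1) × Fin (M + 1)) :=
    univ.filter fun t => (t.1 : ℕ) < t.2 ∧ ¬ ∃ s ≤ dp q t.2, q^[s] t.2 = t.1
  have hI : I.card ≤ L := by
    have := card_le_univ I
    rwa [Fintype.card_prod, Fintype.card_fin] at this
  obtain ⟨ω, hω⟩ := exists_avoid (L := L) (N := N) (by omega) I hI (by
      intro t ht heq
      have := (mem_filter.1 ht).2.1
      rw [heq] at this
      exact lt_irrefl _ this)
    (fun t ω => st q fm x0 ω t.1 (Fin.last 0) = st q fm x0 ω t.2 (Fin.last 0) ∨
      G.Adj (st q fm x0 ω t.1 (Fin.last 0)) (st q fm x0 ω t.2 (Fin.last 0))) (by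
      rintro ⟨i, j⟩ ht ω P hP
      obtain ⟨-, hij, hanc⟩ := mem_filter.1 ht
      simp only at hij hanc hP
      have hjM : (j : ℕ) ≤ M := by omega
      have hiM : (i : ℕ) ≤ M := by omega
      have hi0 : 1 ≤ (i : ℕ) := by
        by_contra h0
        refine hanc ⟨dp q j, le_rfl, ?_⟩
        rw [iter_dp hp]
        omega
      have hj0 : 1 ≤ (j : ℕ) := by omega
      have hpi := hp i hi0
      have hpj := hp j hj0
      have ei : Fin.ofNat (M + 1) (i : ℕ) = i := by
        ext
        simp only [Fin.ofNat]
        exact Nat.mod_eq_of_lt (by omega)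
      have ej : Fin.ofNat (M + 1) (j : ℕ) = j := by
        ext
        simp only [Fin.ofNat]
        exact Nat.mod_eq_of_lt (by omega)
      have hne : i ≠ j := fun h => by rw [h] at hij; exact lt_irrefl _ hij
      set u : Fin N → V := fm (M - dp q i) (st q fm x0 ω (q i)) with hu
      set w : Fin N → V := fm (M - dp q j) (st q fm x0 ω (q j)) with hw
      have nai : ¬ ∃ s ≤ dp q (q i), q^[s] (q i) = i := by
        rintro ⟨s, s1, s2⟩
        have := iter_le hp s (q i) s1
        omega
      have naj : ¬ ∃ s ≤ dp q (q i), q^[s] (q i) = j := by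
        rintro ⟨s, s1, s2⟩
        have := iter_le hp s (q i) s1
        omega
      have nbj : ¬ ∃ s ≤ dp q (q j), q^[s] (q j) = j := by
        rintro ⟨s, s1, s2⟩
        have := iter_le hp s (q j) s1
        omega
      have nbi : ¬ ∃ s ≤ dp q (q j), q^[s] (q j) = i := by
        rintro ⟨s, s1, s2⟩
        refine hanc ⟨s + 1, ?_, ?_⟩
        · rw [dp_pos hp hj0]
          omega
        · rw [Function.iterate_succ_apply]
          exact s2
      have key : ∀ x ∈ P, u x.1 = w x.2 ∨ G.Adj (u x.1) (w x.2) := by
        intro x hx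
        have h1 := hP x hx
        rw [hvt _ i hi0, hvt _ j hj0, st_indep hp fm x0 _ j _ (q i) (by omega) naj,
          st_indep hp fm x0 _ i _ (q i) (by omega) nai,
          st_indep hp fm x0 _ j _ (q j) (by omega) nbj,
          st_indep hp fm x0 _ i _ (q j) (by omega) nbi, ei, ej, Function.update_self,
          Function.update_of_ne hne, Function.update_self] at h1
        exact h1
      obtain ⟨u1, u2⟩ := hfm _ _ (hlevp ω i hi0 hiM)
      obtain ⟨w1, w2⟩ := hfm _ _ (hlevp ω j hj0 hjM)
      have h3 := few_pairs hG u w u1 w1 (fun a => (hX _ (w2 a).2.mem).2) P key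
      calc L * P.card ≤ L * (3 * N) := Nat.mul_le_mul_left _ h3
        _ = 3 * L * N := by ring
        _ < N * N := Nat.mul_lt_mul_of_pos_right (by omega) (by omega)
        _ = N ^ 2 := (sq N).symm)
  -- paths
  have hstep : ∀ j, 1 ≤ j → j ≤ M → Mem l r (p (st q fm x0 ω j (Fin.last 0)))
      (st q fm x0 ω (q j) (Fin.last 0)) := by
    intro j hj hjM
    rw [hvt ω j hj]
    exact ((hfm _ _ (hlevp ω j hj hjM)).2 _).1
  have hmem : ∀ j ≤ M, X (st q fm x0 ω j (Fin.last 0)) := fun j hj => (hlev ω j hj).mem
  have hstep' : ∀ j, 1 ≤ j → j ≤ M → p (st q fm x0 ω (q j) (Fin.last 0)) <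
      p (st q fm x0 ω j (Fin.last 0)) := by
    intro j hj hjM
    have h1 := (hstep j hj hjM).1
    have h2 := (hX _ (hmem (q j) (by have := hp j hj; omega))).1
    omega
  have hpath : ∀ s j, j ≤ M → s ≤ dp q j → p (st q fm x0 ω (q^[s] j) (Fin.last 0)) ≤
      p (st q fm x0 ω j (Fin.last 0)) := by
    intro s
    induction s with
    | zero => intro j _ _; exact le_rfl
    | succ s ih =>
      intro j hjM hs
      rcases Nat.eq_zero_or_pos j with rfl | hj
      · rw [dp_zero] at hs
        omega
      · rw [Function.iterate_succ_apply]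
        rw [dp_pos hp hj] at hs
        have h1 := hp j hj
        exact (ih (q j) (by omega) (by omega)).trans (hstep' j hj hjM).le
  -- the embedding
  have key : ∀ i j, i < j → j ≤ M →
      st q fm x0 ω i (Fin.last 0) ≠ st q fm x0 ω j (Fin.last 0) ∧
      (G.Adj (st q fm x0 ω i (Fin.last 0)) (st q fm x0 ω j (Fin.last 0)) ↔ q j = i) := by
    intro i j hij hjM
    have hj0 : 1 ≤ j := by omega
    have hd := dp_le hp j
    have hdj := dp_pos hp hj0
    have hqj := hp j hj0
    by_cases hpj : q j = i
    · have h1 := hstep j hj0 hjM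
      have h2 := hstep' j hj0 hjM
      rw [hpj] at h1 h2
      have hne : st q fm x0 ω i (Fin.last 0) ≠ st q fm x0 ω j (Fin.last 0) := fun h => by
        rw [h] at h2
        exact lt_irrefl _ h2
      exact ⟨hne, fun _ => hpj, fun _ => (hG _ _).2 ⟨hne, Or.inr h1⟩⟩
    · by_cases hanc : ∃ s ≤ dp q j, q^[s] j = i
      · obtain ⟨s, s1, s2⟩ := hanc
        obtain ⟨s, rfl⟩ : ∃ t, s = t + 2 := by
          refine ⟨s - 2, ?_⟩
          by_contra h1
          have : s = 0 ∨ s = 1 := by omega
          rcases this with rfl | rfl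
          · simp only [Function.iterate_zero, id] at s2
            omega
          · simp only [Function.iterate_one] at s2
            exact hpj s2
        -- the child of `i` on the path
        set i' := q^[s + 1] j with hi'
        have e1 : q i' = i := by
          have h := Function.iterate_succ_apply' q (s + 1) j
          exact h.symm.trans s2
        have hi'0 : 1 ≤ i' := by
          by_contra h0
          have h1 : i' = 0 := by omega
          have h2 : ∀ t k, k ≤ M → t < dp q k → q^[t] k ≠ 0 := by
            intro t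
            induction t with
            | zero =>
              intro k hk hk' h3
              simp only [Function.iterate_zero, id] at h3
              subst h3
              rw [dp_zero] at hk'
              omega
            | succ t iht =>
              intro k hk hk'
              rcases Nat.eq_zero_or_pos k with rfl | hk0
              · rw [dp_zero] at hk'
                omega
              · rw [Function.iterate_succ_apply]
                rw [dp_pos hp hk0] at hk'
                have h1 := hp k hk0
                exact iht (q k) (by omega) (by omega)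
          exact h2 (s + 1) j hjM (by omega) h1
        have hi'j : i' ≤ q j := by
          have h1 := iter_le hp s (q j) (by omega)
          rwa [← Function.iterate_succ_apply] at h1
        have h1 := hstep i' hi'0 (by omega)
        rw [e1] at h1
        have h2 : p (st q fm x0 ω i' (Fin.last 0)) ≤ p (st q fm x0 ω (q j) (Fin.last 0)) := by
          have h3 := hpath s (q j) (by omega) (by omega)
          rwa [← Function.iterate_succ_apply] at h3
        have h3 := hstep' j hj0 hjM
        have h4 := hpath 1 i' (by omega) (by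
          rw [dp_pos hp hi'0]
          omega)
        simp only [Function.iterate_one] at h4
        rw [e1] at h4
        have h5 := hstep' i' hi'0 (by omega)
        rw [e1] at h5
        have hne : st q fm x0 ω i (Fin.last 0) ≠ st q fm x0 ω j (Fin.last 0) := fun h => by
          rw [h] at h5
          omega
        refine ⟨hne, fun hadj => ?_, fun h => absurd h hpj⟩
        exfalso
        have hXi := hX _ (hmem i (by omega))
        have hXj := hX _ (hmem j hjM)
        rcases ((hG _ _).1 hadj).2 with h6 | h6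
        · have := h6.1
          omega
        · have h7 : Mem l r (p (st q fm x0 ω (q j) (Fin.last 0)))
              (st q fm x0 ω i (Fin.last 0)) := ⟨by
            have := h1.1
            omega, by
            have := h6.2
            omega⟩
          have hne' : st q fm x0 ω j (Fin.last 0) ≠ st q fm x0 ω (q j) (Fin.last 0) := fun h => by
            rw [← h] at h3
            exact lt_irrefl _ h3
          exact hXX _ _ _ (hmem j hjM) (hmem (q j) (by omega)) (hmem i (by omega))
            ((hG _ _).2 ⟨hne', Or.inl (hstep j hj0 hjM)⟩) h6 h7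
      · have h1 := hω (⟨i, by omega⟩, ⟨j, by omega⟩) (mem_filter.2 ⟨mem_univ _, hij, hanc⟩)
        simp only [not_or] at h1
        exact ⟨h1.1, fun h3 => absurd h3 h1.2, fun h3 => absurd h3 hpj⟩
  refine ⟨⟨⟨fun v => st q fm x0 ω (f v) (Fin.last 0), fun u v huv => ?_⟩, fun {u v} => ?_⟩⟩
  · simp only at huv
    rcases lt_trichotomy (f u) (f v) with h | h | h
    · exact absurd huv (key _ _ h (f2 v)).1
    · exact f1 h
    · exact absurd huv.symm (key _ _ h (f2 u)).1
  · show G.Adj (st q fm x0 ω (f u) (Fin.last 0)) (st q fm x0 ω (f v) (Fin.last 0)) ↔ T.Adj u v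
    rcases lt_trichotomy (f u) (f v) with h | h | h
    · rw [(key _ _ h (f2 v)).2, f4 u v h]
    · have : u = v := f1 h
      subst this
      exact ⟨fun h => absurd h (G.loopless.irrefl _), fun h => absurd h (T.loopless.irrefl _)⟩
    · rw [G.adj_comm, T.adj_comm, (key _ _ h (f2 u)).2, f4 v u h]

end Pool.Agent.T9h70.Pt
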